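import Mathlib
import Pool.Agent.TH437.CS.Final

set_option autoImplicit false
open Finset Filter

/-!
Distinct consecutive sums of increasing sequences in `[n]`: `liminf M(n)/n^2 >= 1/8`.
-/

namespace Pool.Agent.Results.MP_0ccce1_co.LowerEighth

/-- The set of consecutive sums `a_i + ... + a_j`, `i ≤ j`, of a finite sequence `a`. -/
def consecutiveSums {k : ℕ} (a : Fin k → ℕ) : Finset ℕ :=
  ((Finset.univ : Finset (Fin k × Fin k)).filter (fun p => p.1 ≤ p.2)).image
    (fun p => ∑ u ∈ Finset.Icc p.1 p.2, a u)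

/-- `M n`: the largest number of distinct consecutive sums of a strictly increasing sequence
with terms in `{1, ..., n}`. -/
noncomputable def M (n : ℕ) : ℕ :=
  sSup {c | ∃ (k : ℕ) (a : Fin k → ℕ), StrictMono a ∧ (∀ i, 1 ≤ a i ∧ a i ≤ n) ∧
    (consecutiveSums a).card = c}

lemma bdd (n : ℕ) : BddAbove {c | ∃ (k : ℕ) (a : Fin k → ℕ), StrictMono a ∧
    (∀ i, 1 ≤ a i ∧ a i ≤ n) ∧ (consecutiveSums a).card = c} := by
  refine ⟨n * n, ?_⟩
  rintro c ⟨k, a, ha, hb, rfl⟩
  have hk : k ≤ n := by
    have : (Finset.univ : Finset (Fin k)).card ≤ (Finset.Icc 1 n).card :=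
      Finset.card_le_card_of_injOn a (fun i _ => by
        rw [Finset.mem_coe, Finset.mem_Icc]; exact hb i) (fun i _ j _ h => ha.injective h)
    simpa using this
  calc (consecutiveSums a).card
      ≤ ((Finset.univ : Finset (Fin k × Fin k)).filter (fun p => p.1 ≤ p.2)).card :=
        Finset.card_image_le
    _ ≤ (Finset.univ : Finset (Fin k × Fin k)).card := Finset.card_filter_le _ _
    _ = k * k := by simp
    _ ≤ n * n := Nat.mul_le_mul hk hk

open Pool.Agent.TH437.CS in
lemma M_ge (n m : ℕ) (D : Finset ℕ) (hm : ∀ j < m, sq D 0 j ≤ n) :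
    ((Rn m).image (fun p => run (sq D 0) p.1 p.2)).card ≤ M n := by
  have h1 : ((Rn m).image (fun p => run (sq D 0) p.1 p.2)).card ≤
      (consecutiveSums (fun i : Fin m => sq D 0 i)).card := by
    apply Finset.card_le_card
    intro s hs
    rw [Finset.mem_image] at hs
    obtain ⟨⟨j, k⟩, hp, rfl⟩ := hs
    rw [mem_Rn] at hp
    simp only at hp
    unfold consecutiveSums
    rw [Finset.mem_image]
    refine ⟨(⟨j, by omega⟩, ⟨k - 1, by omega⟩), ?_, ?_⟩
    · rw [Finset.mem_filter]
      refine ⟨Finset.mem_univ _, ?_⟩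
      rw [Fin.le_def]
      simp only
      omega
    · simp only
      have h2 := Fin.map_valEmbedding_Icc (⟨j, by omega⟩ : Fin m) (⟨k - 1, by omega⟩ : Fin m)
      have h3 : ∑ u ∈ Finset.Icc (⟨j, by omega⟩ : Fin m) (⟨k - 1, by omega⟩ : Fin m),
          sq D 0 (u : ℕ) = ∑ t ∈ (Finset.Icc (⟨j, by omega⟩ : Fin m)
            (⟨k - 1, by omega⟩ : Fin m)).map Fin.valEmbedding, sq D 0 t := by
        rw [Finset.sum_map]
        rfl
      rw [h3, h2]
      unfold run
      apply Finset.sum_congr _ (fun _ _ => rfl)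
      ext t
      simp only [Finset.mem_Icc, Finset.mem_Ico]
      omega
  refine h1.trans ?_
  apply le_csSup (bdd n)
  refine ⟨m, fun i : Fin m => sq D 0 i, ?_, ?_, rfl⟩
  · intro i j hij
    exact sq_strict D 0 hij
  · intro i
    refine ⟨?_, hm i i.2⟩
    have := sq_gt D 0 (i : ℕ)
    show 1 ≤ sq D 0 (i : ℕ)
    omega

/-- `liminf M(n) / n^2 ≥ 1/8`. -/
theorem result : (1 / 8 : ℝ) ≤ liminf (fun n : ℕ => (M n : ℝ) / (n : ℝ) ^ 2) atTop := by
  apply le_of_forall_lt
  intro c hc
  -- choose q with c < 1/8 (1 - 18/q)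
  obtain ⟨q0, hq0⟩ := exists_nat_gt (18 / (8 * (1 / 8 - c)))
  set q : ℕ := q0 + 18 with hq
  have hq18 : 18 ≤ q := by omega
  have hqpos : (0 : ℝ) < q := by exact_mod_cast (by omega : 0 < q)
  have hd : 0 < 8 * (1 / 8 - c) := by linarith
  have hcq : c < 1 / 8 * (1 - 18 / q) := by
    have h1 : 18 / (8 * (1 / 8 - c)) < q := by
      have : (q0 : ℝ) ≤ q := by exact_mod_cast (by omega : q0 ≤ q)
      linarith
    rw [div_lt_iff₀ hd] at h1
    have h2 : 18 / (q : ℝ) < 8 * (1 / 8 - c) := by
      rw [div_lt_iff₀ hqpos]; linarith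
    linarith
  obtain ⟨n0, hn0⟩ := Pool.Agent.TH437.CS.many_sums q hq18
  refine lt_of_lt_of_le hcq ?_
  apply le_liminf_of_le
  · apply IsBoundedUnder.isCoboundedUnder_ge
    refine ⟨1, ?_⟩
    rw [eventually_map]
    filter_upwards [eventually_gt_atTop 0] with n hn
    have hnr : (0 : ℝ) < n := by exact_mod_cast hn
    rw [div_le_one (by positivity)]
    have h1 : M n ≤ n * n := by
      apply csSup_le'
      rintro c ⟨k, a, ha, hb, rfl⟩
      have hk : k ≤ n := by
        have : (Finset.univ : Finset (Fin k)).card ≤ (Finset.Icc 1 n).card :=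
          Finset.card_le_card_of_injOn a (fun i _ => by
            rw [Finset.mem_coe, Finset.mem_Icc]; exact hb i) (fun i _ j _ h => ha.injective h)
        simpa using this
      calc (consecutiveSums a).card
          ≤ ((Finset.univ : Finset (Fin k × Fin k)).filter (fun p => p.1 ≤ p.2)).card :=
            Finset.card_image_le
        _ ≤ (Finset.univ : Finset (Fin k × Fin k)).card := Finset.card_filter_le _ _
        _ = k * k := by simp
        _ ≤ n * n := Nat.mul_le_mul hk hk
    have h2 : (M n : ℝ) ≤ ((n * n : ℕ) : ℝ) := by exact_mod_cast h1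
    push_cast at h2
    rw [pow_two]
    exact h2
  · filter_upwards [eventually_ge_atTop (n0 + 1)] with n hn
    obtain ⟨D, m, hm, hI⟩ := hn0 n (by omega)
    have hnr : (0 : ℝ) < n := by exact_mod_cast (by omega : 0 < n)
    rw [le_div_iff₀ (by positivity)]
    refine hI.trans ?_
    exact_mod_cast M_ge n m D hm

end Pool.Agent.Results.MP_0ccce1_co.LowerEighth
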